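import Mathlib

/-!
# MP_f8a8cb: weakly pseudocompact neighbourhoods in locally precompact groups
-/

open Filter Topology

namespace Pool.Agent.Results.MP_f8a8cb_gt.Pseudo

universe u v

/-- A space is pseudocompact if every continuous real function on it is bounded. -/
def Pseudocompact (X : Type u) [TopologicalSpace X] : Prop :=
  ∀ f : X → ℝ, Continuous f → ∃ C : ℝ, ∀ x, |f x| ≤ C

/-- A space is weakly pseudocompact if it has a Hausdorff compactification in which it is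
`G_δ`-dense. -/
def WeaklyPseudocompact (X : Type u) [TopologicalSpace X] : Prop :=
  ∃ (K : Type v) (_ : TopologicalSpace K), CompactSpace K ∧ T2Space K ∧
    ∃ e : X → K, IsEmbedding e ∧ DenseRange e ∧
      ∀ Z : Set K, IsGδ Z → Z.Nonempty → (Z ∩ Set.range e).Nonempty

section main

variable {H : Type u} [Group H] [TopologicalSpace H] [IsTopologicalGroup H]
  [LocallyCompactSpace H] [T2Space H] {G : Subgroup H} {U : Set G}
  {K : Type v} [TopologicalSpace K] [CompactSpace K] [T2Space K] {e : closure U → K}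

omit [IsTopologicalGroup H] [LocallyCompactSpace H] [T2Space H] in
/-- Open subsets of `closure U` are traces of open subsets of `H`. -/
theorem exists_open {S : Set (closure U)} (hS : IsOpen S) :
    ∃ B : Set H, IsOpen B ∧ ∀ w : closure U, w ∈ S ↔ ((w : G) : H) ∈ B := by
  obtain ⟨T, hT, rfl⟩ := isOpen_induced_iff.1 hS
  obtain ⟨B, hB, rfl⟩ := isOpen_induced_iff.1 hT
  exact ⟨B, hB, fun w => Iff.rfl⟩

omit [IsTopologicalGroup H] [LocallyCompactSpace H] [T2Space H] in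
/-- One step of the construction. -/
theorem step (he : IsEmbedding e) {O A : Set H} (hO : IsOpen O)
    (hOU : ∀ w : G, (w : H) ∈ O → w ∈ U) (hA : IsOpen A) (hAO : A ⊆ O) (x : G)
    (hx : (x : H) ∈ A) :
    ∃ (A₁ C : Set K) (A' : Set H), IsOpen A₁ ∧ IsClosed C ∧ C ⊆ A₁ ∧
      (∀ w : closure U, e w ∈ A₁ → ((w : G) : H) ∈ A) ∧ IsOpen A' ∧ (x : H) ∈ A' ∧ A' ⊆ A ∧
      ∀ w : G, (w : H) ∈ A' → ∃ h : w ∈ closure U, e ⟨w, h⟩ ∈ C := by
  have hS : IsOpen {w : closure U | ((w : G) : H) ∈ A} :=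
    hA.preimage (continuous_subtype_val.comp continuous_subtype_val)
  obtain ⟨A₁, hA₁, hA₁S⟩ := he.isInducing.isOpen_iff.1 hS
  have hxU : x ∈ closure U := subset_closure (hOU x (hAO hx))
  have hex : e ⟨x, hxU⟩ ∈ A₁ := by
    have : (⟨x, hxU⟩ : closure U) ∈ e ⁻¹' A₁ := by
      rw [hA₁S]; exact hx
    exact this
  obtain ⟨C, hC, hCc, hCA⟩ := exists_mem_nhds_isClosed_subset (hA₁.mem_nhds hex)
  have hS' : IsOpen (e ⁻¹' (interior C)) := isOpen_interior.preimage he.continuous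
  obtain ⟨B, hB, hBS⟩ := exists_open hS'
  refine ⟨A₁, C, A ∩ B ∩ O, hA₁, hCc, hCA, ?_, (hA.inter hB).inter hO, ?_, ?_, ?_⟩
  · intro w hw
    have : w ∈ e ⁻¹' A₁ := hw
    rw [hA₁S] at this
    exact this
  · refine ⟨⟨hx, ?_⟩, hAO hx⟩
    exact (hBS ⟨x, hxU⟩).1 (mem_interior_iff_mem_nhds.2 hC)
  · exact fun w hw => hw.1.1
  · intro w hw
    have hwU : w ∈ closure U := subset_closure (hOU w hw.2)
    exact ⟨hwU, interior_subset ((hBS ⟨w, hwU⟩).2 hw.1.2)⟩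

omit [IsTopologicalGroup H] [LocallyCompactSpace H] [T2Space H] [T2Space K] in
/-- The final point of the construction. -/
theorem exists_point (hd : ∀ Z : Set K, IsGδ Z → Z.Nonempty → (Z ∩ Set.range e).Nonempty)
    (A : ℕ → Set H) (A₁ C : ℕ → Set K) (h1 : ∀ n, IsOpen (A₁ n)) (h2 : ∀ n, IsClosed (C n))
    (h3 : ∀ n, C n ⊆ A₁ n) (h4 : ∀ n, ∀ w : closure U, e w ∈ A₁ n → ((w : G) : H) ∈ A n)
    (h5 : ∀ n, ∃ w : G, (w : H) ∈ A n) (hanti : ∀ n, A (n + 1) ⊆ A n)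
    (h6 : ∀ n, ∀ w : G, (w : H) ∈ A (n + 1) → ∃ h : w ∈ closure U, e ⟨w, h⟩ ∈ C n) :
    ∃ x : G, ∀ n, (x : H) ∈ A n := by
  have hne : (⋂ n, C n).Nonempty := by
    have hD : (⋂ n, ⋂ m ∈ Finset.range (n + 1), C m).Nonempty := by
      apply IsCompact.nonempty_iInter_of_sequence_nonempty_isCompact_isClosed
      · intro n
        apply Set.iInter₂_mono'
        intro m hm
        exact ⟨m, Finset.range_mono (Nat.le_succ _) hm, subset_rfl⟩
      · intro n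
        obtain ⟨w, hw⟩ := h5 (n + 1)
        have hmono : ∀ m, m ≤ n + 1 → (w : H) ∈ A m := by
          intro m hm
          exact antitone_nat_of_succ_le hanti hm hw
        obtain ⟨hwU, -⟩ := h6 n w hw
        refine ⟨e ⟨w, hwU⟩, ?_⟩
        simp only [Set.mem_iInter]
        intro m hm
        obtain ⟨h, h'⟩ := h6 m w (hmono (m + 1) (Finset.mem_range.1 hm))
        exact h'
      · apply IsClosed.isCompact
        exact isClosed_biInter (fun m _ => h2 m)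
      · intro n
        exact isClosed_biInter (fun m _ => h2 m)
    refine hD.mono ?_
    intro y hy
    simp only [Set.mem_iInter] at hy ⊢
    intro n
    exact hy n n (Finset.mem_range.2 (Nat.lt_succ_self n))
  obtain ⟨_, hz, ⟨x, rfl⟩⟩ := hd (⋂ n, A₁ n) (IsGδ.iInter fun n => (h1 n).isGδ)
    (hne.mono (Set.iInter_mono h3))
  rw [Set.mem_iInter] at hz
  exact ⟨x, fun n => h4 n x (hz n)⟩

/-- First half: `G` meets every nonempty `G_δ`-subset of its closure in `H`. -/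
theorem gdelta_dense (hU : IsOpen U) (h1U : (1 : G) ∈ U) (he : IsEmbedding e)
    (hd : ∀ Z : Set K, IsGδ Z → Z.Nonempty → (Z ∩ Set.range e).Nonempty)
    (z : H) (hz : z ∈ closure (G : Set H)) (Z : ℕ → Set H) (hZ : ∀ n, IsOpen (Z n))
    (hzZ : ∀ n, z ∈ Z n) : ∃ g : G, ∀ n, (g : H) ∈ Z n := by
  have hcl : ∀ x ∈ closure (G : Set H), ∀ y ∈ closure (G : Set H), x * y ∈ closure (G : Set H) := by
    intro x hx y hy
    exact (G.topologicalClosure).mul_mem hx hy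
  have hcli : ∀ x ∈ closure (G : Set H), x⁻¹ ∈ closure (G : Set H) := by
    intro x hx
    exact (G.topologicalClosure).inv_mem hx
  have hclG : ∀ x : G, (x : H) ∈ closure (G : Set H) := fun x => subset_closure x.2
  -- open sets meeting the closure of `G` meet `G`
  have hmeet : ∀ (V : Set H), IsOpen V → ∀ x ∈ V, x ∈ closure (G : Set H) →
      ∃ w : G, (w : H) ∈ V := by
    intro V hV x hxV hx
    obtain ⟨w, hwV, hwG⟩ := mem_closure_iff.1 hx V hV hxV
    exact ⟨⟨w, hwG⟩, hwV⟩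
  obtain ⟨O, hO, hOU⟩ := isOpen_induced_iff.1 hU
  have hOU' : ∀ w : G, (w : H) ∈ O → w ∈ U := by
    intro w hw
    rw [← hOU]; exact hw
  have h1O : (1 : H) ∈ O := by
    have : (1 : G) ∈ Subtype.val ⁻¹' O := by rw [hOU]; exact h1U
    exact this
  -- the element `k`
  have hopen1 : IsOpen {w : H | w⁻¹ * z ∈ O} := hO.preimage (by fun_prop)
  obtain ⟨g0, hg0⟩ := hmeet _ hopen1 z (by simpa using h1O) hz
  let k : H := (g0 : H)⁻¹ * z
  have hkO : k ∈ O := hg0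
  have hk : k ∈ closure (G : Set H) := hcl _ (hcli _ (hclG g0)) _ hz
  -- the starting set
  have hkO' : {w : H | k⁻¹ * w ∈ O} ∈ 𝓝 k := by
    have : IsOpen {w : H | k⁻¹ * w ∈ O} := hO.preimage (by fun_prop)
    exact this.mem_nhds (by simpa using h1O)
  obtain ⟨Kc, hKc, hKcn, hKcsub⟩ := local_compact_nhds (inter_mem (hO.mem_nhds hkO) hkO')
  let V0 : Set H := interior Kc
  have hkV0 : k ∈ V0 := mem_interior_iff_mem_nhds.2 hKc
  -- neighbourhoods `Q n`
  have hQ : ∀ n, ∃ Q : Set H, IsOpen Q ∧ (1 : H) ∈ Q ∧ ∀ a ∈ Q, ∀ b ∈ Q, ∀ w ∈ Kc,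
      z * ((k⁻¹ * w) * (a⁻¹ * b)⁻¹ * (k⁻¹ * w)⁻¹) ∈ Z n := by
    intro n
    have hev : ∀ᶠ p : H × H in 𝓝 (1, 1), ∀ w ∈ Kc,
        z * ((k⁻¹ * w) * (p.1⁻¹ * p.2)⁻¹ * (k⁻¹ * w)⁻¹) ∈ Z n := by
      apply IsCompact.eventually_forall_of_forall_eventually hKcsub
      intro w _
      have hcont : Continuous (fun q : (H × H) × H =>
          z * ((k⁻¹ * q.2) * (q.1.1⁻¹ * q.1.2)⁻¹ * (k⁻¹ * q.2)⁻¹)) := by fun_prop
      have h0 : z * ((k⁻¹ * w) * ((1 : H)⁻¹ * 1)⁻¹ * (k⁻¹ * w)⁻¹) ∈ Z n := by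
        have : z * ((k⁻¹ * w) * ((1 : H)⁻¹ * 1)⁻¹ * (k⁻¹ * w)⁻¹) = z := by group
        rw [this]; exact hzZ n
      exact hcont.tendsto ((1, 1), w) ((hZ n).mem_nhds h0)
    rw [nhds_prod_eq] at hev
    obtain ⟨S1, hS1, S2, hS2, hsub⟩ := mem_prod_iff.1 hev
    refine ⟨interior (S1 ∩ S2), isOpen_interior,
      mem_interior_iff_mem_nhds.2 (inter_mem hS1 hS2), ?_⟩
    intro a ha b hb w hw
    exact hsub (Set.mk_mem_prod (interior_subset ha).1 (interior_subset hb).2) w hw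
  choose Q hQo hQ1 hQZ using hQ
  -- the step on the level of the whole construction
  have hstep : ∀ (n : ℕ) (V : {V : Set H // IsOpen V ∧ V ⊆ V0 ∧ ∃ w : G, (w : H) ∈ V}),
      ∃ (A₁ C A₂ C' : Set K) (V1 : Set H) (V' : {V : Set H // IsOpen V ∧ V ⊆ V0 ∧
        ∃ w : G, (w : H) ∈ V}), IsOpen A₁ ∧ IsClosed C ∧ C ⊆ A₁ ∧
        (∀ w : closure U, e w ∈ A₁ → ((w : G) : H) ∈ V.1) ∧
        V1 ⊆ V.1 ∧ V'.1 ⊆ V1 ∧ (∀ w : G, (w : H) ∈ V1 → ∃ h : w ∈ closure U, e ⟨w, h⟩ ∈ C) ∧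
        IsOpen A₂ ∧ IsClosed C' ∧ C' ⊆ A₂ ∧
        (∀ w : closure U, e w ∈ A₂ → k * ((w : G) : H) ∈ V1) ∧
        (∀ w : G, k * (w : H) ∈ V'.1 → ∃ h : w ∈ closure U, e ⟨w, h⟩ ∈ C') ∧
        ∃ v : H, ∀ w ∈ V'.1, v⁻¹ * w ∈ Q n := by
    rintro n ⟨V, hV, hVV0, x, hx⟩
    have hVO : V ⊆ O := fun w hw => (hKcn (interior_subset (hVV0 hw))).1
    obtain ⟨A₁, C, V1, hA₁, hC, hCA, hA₁V, hV1, hxV1, hV1V, hV1C⟩ := step he hO hOU' hV hVO x hx
    -- translate
    let T : Set H := {w | k * w ∈ V1}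
    have hT : IsOpen T := hV1.preimage (by fun_prop)
    have hTO : T ⊆ O := by
      intro w hw
      have h1 : k * w ∈ Kc := interior_subset (hVV0 (hV1V hw))
      have h2 := (hKcn h1).2
      have h3 : k⁻¹ * (k * w) ∈ O := h2
      simpa using h3
    obtain ⟨y, hy⟩ := hmeet T hT (k⁻¹ * x) (by
      show k * (k⁻¹ * x) ∈ V1
      simpa using hxV1) (hcl _ (hcli _ hk) _ (hclG x))
    obtain ⟨A₂, C', V2, hA₂, hC', hCA', hA₂V, hV2, hyV2, hV2T, hV2C⟩ := step he hO hOU' hT hTO y hy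
    -- back
    let S : Set H := {w | k⁻¹ * w ∈ V2}
    have hS : IsOpen S := hV2.preimage (by fun_prop)
    obtain ⟨v, hv⟩ := hmeet S hS (k * y) (by
      show k⁻¹ * (k * y) ∈ V2
      simpa using hyV2) (hcl _ hk _ (hclG y))
    have hSV1 : S ⊆ V1 := by
      intro w hw
      have h3 : k * (k⁻¹ * w) ∈ V1 := hV2T hw
      simpa using h3
    refine ⟨A₁, C, A₂, C', V1, ⟨S ∩ {w | (v : H)⁻¹ * w ∈ Q n}, hS.inter
      ((hQo n).preimage (by fun_prop)), ?_, v, hv, ?_⟩, hA₁, hC, hCA, hA₁V, hV1V, ?_, hV1C,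
      hA₂, hC', hCA', hA₂V, ?_, v, fun w hw => hw.2⟩
    · exact fun w hw => hVV0 (hV1V (hSV1 hw.1))
    · show (v : H)⁻¹ * v ∈ Q n
      rw [inv_mul_cancel]
      exact hQ1 n
    · exact fun w hw => hSV1 hw.1
    · intro w hw
      apply hV2C
      have h3 : k⁻¹ * (k * w) ∈ V2 := hw.1
      simpa using h3
  choose A₁ C A₂ C' V1 V' p1 p2 p3 p4 p5 p6 p7 p8 p9 p10 p11 p12 p13 using hstep
  obtain ⟨w0, hw0⟩ := hmeet V0 isOpen_interior k hkV0 hk
  let s : ℕ → {V : Set H // IsOpen V ∧ V ⊆ V0 ∧ ∃ w : G, (w : H) ∈ V} := fun n =>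
    Nat.rec ⟨V0, isOpen_interior, subset_rfl, w0, hw0⟩ (fun n V => V' n V) n
  have hs : ∀ n, s (n + 1) = V' n (s n) := fun n => rfl
  have hanti : ∀ n, (s (n + 1)).1 ⊆ (s n).1 := fun n => (p6 n (s n)).trans (p5 n (s n))
  -- the point `x`
  obtain ⟨x, hx⟩ := exists_point hd (fun n => (s n).1) (fun n => A₁ n (s n)) (fun n => C n (s n))
    (fun n => p1 n (s n)) (fun n => p2 n (s n)) (fun n => p3 n (s n)) (fun n => p4 n (s n))
    (fun n => (s n).2.2.2) hanti (fun n w hw => p7 n (s n) w (p6 n (s n) hw))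
  -- the point `y`
  obtain ⟨y, hy⟩ := exists_point hd (fun n => {w : H | k * w ∈ V1 n (s n)})
    (fun n => A₂ n (s n)) (fun n => C' n (s n))
    (fun n => p8 n (s n)) (fun n => p9 n (s n)) (fun n => p10 n (s n)) (fun n => p11 n (s n))
    (fun n => by
      obtain ⟨w, hw⟩ := (s (n + 1)).2.2.2
      have hw1 : (w : H) ∈ (V' n (s n)).1 := hw
      have hopen : IsOpen {u : H | k * u ∈ (V' n (s n)).1} :=
        (V' n (s n)).2.1.preimage (by fun_prop)
      obtain ⟨u, hu⟩ := hmeet _ hopen (k⁻¹ * w) (by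
        show k * (k⁻¹ * w) ∈ (V' n (s n)).1
        simpa using hw1) (hcl _ (hcli _ hk) _ (hclG w))
      exact ⟨u, p6 n (s n) hu⟩)
    (fun n w hw => p6 n (s n) (p5 (n + 1) (s (n + 1)) hw))
    (fun n w hw => p12 n (s n) w (p5 (n + 1) (s (n + 1)) hw))
  refine ⟨g0 * x * y⁻¹, fun n => ?_⟩
  obtain ⟨v, hv⟩ := p13 n (s n)
  have hkx : k * (y : H) ∈ (s (n + 1)).1 := p5 (n + 1) (s (n + 1)) (hy (n + 1))
  have ha := hv x (hx (n + 1))
  have hb := hv (k * y) hkx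
  have hkK : k * (y : H) ∈ Kc := interior_subset ((s (n + 1)).2.2.1 hkx)
  have := hQZ n _ ha _ hb (k * y) hkK
  have heq : z * ((k⁻¹ * (k * (y : H))) * ((v⁻¹ * (x : H))⁻¹ * (v⁻¹ * (k * y)))⁻¹ *
      (k⁻¹ * (k * (y : H)))⁻¹) = (g0 : H) * x * (y : H)⁻¹ := by
    have hzk : z = g0 * k := by
      show z = g0 * ((g0 : H)⁻¹ * z)
      group
    rw [hzk]
    group
  rw [heq] at this
  exact this

end main

/-- Second half. -/
theorem pseudo_of_gdelta {H : Type u} [Group H] [TopologicalSpace H] [IsTopologicalGroup H]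
    [LocallyCompactSpace H] (G : Subgroup H)
    (hG : ∀ z ∈ closure (G : Set H), ∀ Z : ℕ → Set H, (∀ n, IsOpen (Z n)) → (∀ n, z ∈ Z n) →
      ∃ g : G, ∀ n, (g : H) ∈ Z n) :
    ∃ V : Set G, IsOpen V ∧ (1 : G) ∈ V ∧ Pseudocompact (closure V) := by
  have hcl : ∀ x ∈ closure (G : Set H), ∀ y ∈ closure (G : Set H), x * y ∈ closure (G : Set H) := by
    intro x hx y hy
    exact (G.topologicalClosure).mul_mem hx hy
  have hcli : ∀ x ∈ closure (G : Set H), x⁻¹ ∈ closure (G : Set H) := by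
    intro x hx
    exact (G.topologicalClosure).inv_mem hx
  have hclG : ∀ x : G, (x : H) ∈ closure (G : Set H) := fun x => subset_closure x.2
  obtain ⟨Kc, hKc, hKcn⟩ := exists_compact_mem_nhds (1 : H)
  let V : Set G := Subtype.val ⁻¹' (interior Kc)
  have hV : IsOpen V := isOpen_interior.preimage continuous_subtype_val
  refine ⟨V, hV, mem_interior_iff_mem_nhds.2 hKcn, ?_⟩
  intro f hf
  by_contra hcon
  push Not at hcon
  -- open sets where `f` is large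
  have hlarge : ∀ n : ℕ, ∃ (x : G) (B : Set H), IsOpen B ∧ (x : H) ∈ B ∧ (x : H) ∈ Kc ∧
      ∀ w : G, (w : H) ∈ B → w ∈ V ∧ ∃ h : w ∈ closure V, (n : ℝ) < |f ⟨w, h⟩| := by
    intro n
    obtain ⟨w, hw⟩ := hcon n
    have hS : IsOpen {w : closure V | (n : ℝ) < |f w|} :=
      isOpen_Ioi.preimage hf.abs
    obtain ⟨T, hT, hTS⟩ := isOpen_induced_iff.1 hS
    obtain ⟨B, hB, rfl⟩ := isOpen_induced_iff.1 hT
    have hTS' : ∀ w : closure V, ((w : G) : H) ∈ B ↔ (n : ℝ) < |f w| := by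
      intro w
      have : w ∈ Subtype.val ⁻¹' (Subtype.val ⁻¹' B) ↔ w ∈ {w : closure V | (n : ℝ) < |f w|} := by
        rw [hTS]
      exact this
    have hwB : ((w : G) : H) ∈ B := (hTS' w).2 hw
    obtain ⟨x, hxB, hxV⟩ := mem_closure_iff.1 w.2 _ hT hwB
    refine ⟨x, B ∩ interior Kc, hB.inter isOpen_interior, ⟨hxB, hxV⟩, interior_subset hxV, ?_⟩
    intro w hw
    have hwV : w ∈ V := hw.2
    exact ⟨hwV, subset_closure hwV, (hTS' ⟨w, subset_closure hwV⟩).1 hw.1⟩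
  choose x B hB hxB hxK hBV using hlarge
  obtain ⟨z, hzK, hz⟩ := hKc.exists_mapClusterPt (f := atTop) (u := fun n => (x n : H))
    (by rw [le_principal_iff, mem_map]; exact Filter.Eventually.of_forall hxK)
  have hzG : z ∈ closure (G : Set H) := by
    rw [mem_closure_iff_nhds]
    intro S hS
    obtain ⟨n, hn⟩ := (mapClusterPt_iff_frequently.1 hz S hS).exists
    exact ⟨x n, hn, (x n).2⟩
  obtain ⟨g, hg⟩ := hG z hzG (fun n => {w : H | (x n : H) * (z⁻¹ * w) ∈ B n})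
    (fun n => (hB n).preimage (by fun_prop)) (fun n => by
      show (x n : H) * (z⁻¹ * z) ∈ B n
      rw [inv_mul_cancel, mul_one]
      exact hxB n)
  -- every neighbourhood of `g` contains points where `f` is large
  have hkey : ∀ S : Set H, IsOpen S → (g : H) ∈ S → ∀ N : ℕ, ∃ w : G, (w : H) ∈ S ∧ w ∈ V ∧
      ∃ h : w ∈ closure V, (N : ℝ) < |f ⟨w, h⟩| := by
    intro S hS hgS N
    have hopen : IsOpen {w : H | w * (z⁻¹ * g) ∈ S} := hS.preimage (by fun_prop)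
    have hzS : z ∈ {w : H | w * (z⁻¹ * g) ∈ S} := by
      show z * (z⁻¹ * g) ∈ S
      simpa using hgS
    have hfr := mapClusterPt_iff_frequently.1 hz _ (hopen.mem_nhds hzS)
    obtain ⟨n, hn, hNn⟩ := (hfr.and_eventually (eventually_ge_atTop N)).exists
    have hmem : (x n : H) * (z⁻¹ * g) ∈ closure (G : Set H) :=
      hcl _ (hclG _) _ (hcl _ (hcli _ hzG) _ (hclG _))
    obtain ⟨w, ⟨hwS, hwB⟩, hwG⟩ := mem_closure_iff.1 hmem (S ∩ B n) (hS.inter (hB n)) ⟨hn, hg n⟩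
    obtain ⟨hwV, h, hlt⟩ := hBV n ⟨w, hwG⟩ hwB
    refine ⟨⟨w, hwG⟩, hwS, hwV, h, lt_of_le_of_lt ?_ hlt⟩
    exact_mod_cast hNn
  have hgV : g ∈ closure V := by
    rw [mem_closure_iff]
    intro T hT hgT
    obtain ⟨S, hS, rfl⟩ := isOpen_induced_iff.1 hT
    obtain ⟨w, hw1, hw2, -⟩ := hkey S hS hgT 0
    exact ⟨w, hw1, hw2⟩
  obtain ⟨N, hN⟩ := exists_nat_gt (|f ⟨g, hgV⟩| + 1)
  have hopen : IsOpen {w : closure V | |f w| < N} := isOpen_Iio.preimage hf.abs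
  obtain ⟨T, hT, hTS⟩ := isOpen_induced_iff.1 hopen
  obtain ⟨S, hS, rfl⟩ := isOpen_induced_iff.1 hT
  have hTS' : ∀ w : closure V, ((w : G) : H) ∈ S ↔ |f w| < N := by
    intro w
    have : w ∈ Subtype.val ⁻¹' (Subtype.val ⁻¹' S) ↔ w ∈ {w : closure V | |f w| < N} := by
      rw [hTS]
    exact this
  have hgS : (g : H) ∈ S := (hTS' ⟨g, hgV⟩).2 (by linarith)
  obtain ⟨w, hw1, -, h, hw2⟩ := hkey S hS hgS N
  have := (hTS' ⟨w, h⟩).1 hw1
  linarith

/-- Let `G` be a subgroup of a locally compact Hausdorff group.  If some open neighbourhood `U` of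
the identity of `G` has weakly pseudocompact closure, then some open neighbourhood `V` of the
identity of `G` has pseudocompact closure. -/
theorem result {H : Type u} [Group H] [TopologicalSpace H] [IsTopologicalGroup H]
    [LocallyCompactSpace H] [T2Space H] (G : Subgroup H) (U : Set G) (hU : IsOpen U)
    (h1 : (1 : G) ∈ U) (hw : WeaklyPseudocompact.{u, v} (closure U)) :
    ∃ V : Set G, IsOpen V ∧ (1 : G) ∈ V ∧ Pseudocompact (closure V) := by
  obtain ⟨K, _, _, _, e, he, -, hd⟩ := hw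
  apply pseudo_of_gdelta
  intro z hz Z hZ hzZ
  exact gdelta_dense hU h1 he hd z hz Z hZ hzZ

end Pool.Agent.Results.MP_f8a8cb_gt.Pseudo
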